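import Mathlib

/-!
# Mobile general position number of the infinite integer lattices

We prove `mob (P_∞^{k,□}) = 2^(2^(k-1))` for every `k ≥ 1`.
-/

namespace Pool.Agent.Results.MP_903b9e_co.LatticeMob

open SimpleGraph Finset

/-- Three vertices lie on a common shortest path of `G`. -/
def OnCommonGeodesic {V : Type*} (G : SimpleGraph V) (a b c : V) : Prop :=
  ∃ (u v : V) (p : G.Walk u v), p.length = G.dist u v ∧
    a ∈ p.support ∧ b ∈ p.support ∧ c ∈ p.support

/-- `S` is in general position: no three distinct vertices of `S` lie on a common shortest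
path of `G`. -/
def GenPos {V : Type*} (G : SimpleGraph V) (S : Set V) : Prop :=
  ∀ a ∈ S, ∀ b ∈ S, ∀ c ∈ S, a ≠ b → b ≠ c → a ≠ c → ¬ OnCommonGeodesic G a b c

/-- A legal move takes one robot from `u` to an adjacent unoccupied vertex `v`, and the set of
occupied vertices after the move is again in general position. -/
def LegalMove {V : Type*} (G : SimpleGraph V) (S T : Set V) : Prop :=
  ∃ u ∈ S, ∃ v, v ∉ S ∧ G.Adj u v ∧ T = insert v (S \ {u}) ∧ GenPos G T

/-- `S` is a mobile general position set: it is in general position, and there is a finite or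
infinite sequence of legal moves (`N` moves, `N : ℕ∞`) starting from `S` such that every vertex
is occupied at some time. -/
def IsMobile {V : Type*} (G : SimpleGraph V) (S : Set V) : Prop :=
  GenPos G S ∧ ∃ (N : ℕ∞) (c : ℕ → Set V), c 0 = S ∧
    (∀ i : ℕ, (i : ℕ∞) < N → LegalMove G (c i) (c (i + 1))) ∧
    ∀ v, ∃ i : ℕ, (i : ℕ∞) ≤ N ∧ v ∈ c i

/-- The `k`-fold Cartesian product of the two-way infinite path: vertex set `ℤ^k`, two vertices
are adjacent when they differ by exactly `1` in exactly one coordinate. -/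
def latticeGraph (k : ℕ) : SimpleGraph (Fin k → ℤ) where
  Adj x y := ∃ i, |x i - y i| = 1 ∧ ∀ j, j ≠ i → x j = y j
  symm := ⟨by
    rintro x y ⟨i, h1, h2⟩
    exact ⟨i, by rw [abs_sub_comm]; exact h1, fun j hj => (h2 j hj).symm⟩⟩
  loopless := ⟨by
    rintro x ⟨i, h1, _⟩
    simp at h1⟩

section dist

variable {k : ℕ}

/-- `ℓ¹` distance. -/
def nrm (x y : Fin k → ℤ) : ℕ := ∑ i, (x i - y i).natAbs

lemma nrm_self (x : Fin k → ℤ) : nrm x x = 0 := by simp [nrm]

lemma nrm_triangle (x y z : Fin k → ℤ) : nrm x z ≤ nrm x y + nrm y z := by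
  unfold nrm
  rw [← Finset.sum_add_distrib]
  apply Finset.sum_le_sum
  intro i _
  have h : (x i - z i).natAbs ≤ (x i - y i).natAbs + (y i - z i).natAbs := by
    have h1 : x i - z i = (x i - y i) + (y i - z i) := by ring
    rw [h1]
    exact Int.natAbs_add_le _ _
  exact h

lemma nrm_adj {x y : Fin k → ℤ} (h : (latticeGraph k).Adj x y) : nrm x y = 1 := by
  obtain ⟨i, h1, h2⟩ := h
  unfold nrm
  rw [Finset.sum_eq_single i]
  · have h3 : ((x i - y i).natAbs : ℤ) = 1 := by rw [Int.natCast_natAbs]; exact h1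
    exact_mod_cast h3
  · intro j _ hj
    rw [h2 j hj]; simp
  · intro h; exact absurd (Finset.mem_univ i) h

lemma nrm_le_length {x y : Fin k → ℤ} (p : (latticeGraph k).Walk x y) : nrm x y ≤ p.length := by
  induction p with
  | nil => simp [nrm_self]
  | cons h p ih =>
    rw [Walk.length_cons]
    have := nrm_triangle _ _ _ |>.trans (Nat.add_le_add (nrm_adj h).le ih)
    omega

lemma exists_walk (n : ℕ) : ∀ (x y : Fin k → ℤ), nrm x y = n →
    ∃ p : (latticeGraph k).Walk x y, p.length = n := by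
  induction n with
  | zero =>
    intro x y h
    have hxy : x = y := by
      funext i
      have := (Finset.sum_eq_zero_iff.mp h) i (Finset.mem_univ i)
      omega
    subst hxy
    exact ⟨Walk.nil, rfl⟩
  | succ n ih =>
    intro x y h
    have hne : ∃ i, x i ≠ y i := by
      by_contra hcon
      push Not at hcon
      have : x = y := funext hcon
      rw [this, nrm_self] at h
      omega
    obtain ⟨i, hi⟩ := hne
    let s : ℤ := if x i < y i then 1 else -1
    let x' : Fin k → ℤ := Function.update x i (x i + s)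
    have hadj : (latticeGraph k).Adj x x' := by
      refine ⟨i, ?_, ?_⟩
      · simp only [x', Function.update_self, s]
        split_ifs <;> simp
      · intro j hj
        simp [x', Function.update_of_ne hj]
    have hn : nrm x' y + 1 = nrm x y := by
      unfold nrm
      rw [← Finset.add_sum_erase _ _ (Finset.mem_univ i),
        ← Finset.add_sum_erase (s := Finset.univ) (f := fun j => (x j - y j).natAbs) 
          (a := i) (Finset.mem_univ i)]
      have h1 : ∑ j ∈ Finset.univ.erase i, (x' j - y j).natAbs =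
          ∑ j ∈ Finset.univ.erase i, (x j - y j).natAbs := by
        apply Finset.sum_congr rfl
        intro j hj
        simp [x', Function.update_of_ne (Finset.ne_of_mem_erase hj)]
      rw [h1]
      have h2 : (x' i - y i).natAbs + 1 = (x i - y i).natAbs := by
        simp only [x', Function.update_self, s]
        split_ifs with hlt <;> omega
      omega
    obtain ⟨p, hp⟩ := ih x' y (by omega)
    exact ⟨Walk.cons hadj p, by simp [hp]⟩

lemma dist_eq (x y : Fin k → ℤ) : (latticeGraph k).dist x y = nrm x y := by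
  obtain ⟨p, hp⟩ := exists_walk (nrm x y) x y rfl
  apply le_antisymm
  · rw [← hp]; exact dist_le p
  · have hr : (latticeGraph k).Reachable x y := ⟨p⟩
    obtain ⟨q, hq⟩ := hr.exists_walk_length_eq_dist
    rw [← hq]
    exact nrm_le_length q

/-- `b` lies in the box spanned by `a` and `c`. -/
def Betw (a b c : Fin k → ℤ) : Prop :=
  ∀ i, (a i ≤ b i ∧ b i ≤ c i) ∨ (c i ≤ b i ∧ b i ≤ a i)

lemma betw_of_nrm {a b c : Fin k → ℤ} (h : nrm a b + nrm b c ≤ nrm a c) : Betw a b c := by
  intro i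
  by_contra hcon
  push Not at hcon
  have h1 : nrm a c < nrm a b + nrm b c := by
    unfold nrm
    rw [← Finset.sum_add_distrib]
    apply Finset.sum_lt_sum
    · intro j _; omega
    · refine ⟨i, Finset.mem_univ i, ?_⟩
      omega
  omega

lemma nrm_of_betw {a b c : Fin k → ℤ} (h : Betw a b c) : nrm a b + nrm b c = nrm a c := by
  unfold nrm
  rw [← Finset.sum_add_distrib]
  apply Finset.sum_congr rfl
  intro i _
  have := h i
  omega

lemma geodesic_of_betw {a b c : Fin k → ℤ} (h : Betw a b c) :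
    OnCommonGeodesic (latticeGraph k) a b c := by
  obtain ⟨p, hp⟩ := exists_walk (nrm a b) a b rfl
  obtain ⟨q, hq⟩ := exists_walk (nrm b c) b c rfl
  refine ⟨a, c, p.append q, ?_, ?_, ?_, ?_⟩
  · rw [Walk.length_append, hp, hq, dist_eq, nrm_of_betw h]
  · exact Walk.start_mem_support _
  · rw [Walk.mem_support_append_iff]; exact Or.inl (Walk.end_mem_support _)
  · exact Walk.end_mem_support _

lemma nrm_getVert {u v : Fin k → ℤ} (p : (latticeGraph k).Walk u v) (s : ℕ) (d : ℕ) :
    nrm (p.getVert s) (p.getVert (s + d)) ≤ d := by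
  induction d with
  | zero => simp [nrm_self]
  | succ d ih =>
    refine (nrm_triangle _ (p.getVert (s + d)) _).trans ?_
    have : nrm (p.getVert (s + d)) (p.getVert (s + (d + 1))) ≤ 1 := by
      by_cases hlt : s + d < p.length
      · exact (nrm_adj (p.adj_getVert_succ hlt)).le
      · rw [p.getVert_of_length_le (by omega), p.getVert_of_length_le (by omega), nrm_self]
        omega
    omega

lemma betw_of_geodesic {a b c : Fin k → ℤ} (h : OnCommonGeodesic (latticeGraph k) a b c) :
    Betw a b c ∨ Betw b a c ∨ Betw a c b := by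
  obtain ⟨u, v, p, hlen, ha, hb, hc⟩ := h
  rw [Walk.mem_support_iff_exists_getVert] at ha hb hc
  obtain ⟨i, hi, hil⟩ := ha
  obtain ⟨j, hj, hjl⟩ := hb
  obtain ⟨l, hl, hll⟩ := hc
  rw [dist_eq] at hlen
  have key : ∀ i j l : ℕ, i ≤ j → j ≤ l → l ≤ p.length →
      Betw (p.getVert i) (p.getVert j) (p.getVert l) := by
    intro i j l hij hjl hl
    apply betw_of_nrm
    obtain ⟨d, rfl⟩ := Nat.exists_eq_add_of_le hij
    obtain ⟨e, rfl⟩ := Nat.exists_eq_add_of_le hjl
    obtain ⟨f, hf⟩ := Nat.exists_eq_add_of_le hl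
    have h1 := nrm_getVert p i d
    have h2 := nrm_getVert p (i + d) e
    have h3 := nrm_getVert p 0 i
    have h4 := nrm_getVert p (i + d + e) f
    rw [← hf, p.getVert_length] at h4
    rw [p.getVert_zero, zero_add] at h3
    have h5 := nrm_triangle u (p.getVert i) v
    have h6 := nrm_triangle (p.getVert i) (p.getVert (i + d + e)) v
    omega
  have key' : ∀ x y z : Fin k → ℤ, Betw x y z → Betw z y x := by
    intro x y z h i
    have := h i
    tauto
  rw [← hi, ← hj, ← hl]
  rcases le_total i j with h1 | h1 <;> rcases le_total j l with h2 | h2 <;>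
    rcases le_total i l with h3 | h3
  · exact Or.inl (key i j l h1 h2 hll)
  · exact Or.inl (key i j l h1 h2 hll)
  · exact Or.inr (Or.inr (key i l j h3 h2 hjl))
  · exact Or.inr (Or.inl (key' _ _ _ (key l i j h3 h1 hjl)))
  · exact Or.inr (Or.inl (key j i l h1 h3 hll))
  · exact Or.inr (Or.inr (key' _ _ _ (key j l i h2 h3 hil)))
  · exact Or.inl (key' _ _ _ (key l j i h2 h1 hil))
  · exact Or.inl (key' _ _ _ (key l j i h2 h1 hil))

lemma genPos_iff {S : Set (Fin k → ℤ)} : GenPos (latticeGraph k) S ↔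
    ∀ a ∈ S, ∀ b ∈ S, ∀ c ∈ S, a ≠ b → b ≠ c → a ≠ c → ¬ Betw a b c := by
  constructor
  · intro h a ha b hb c hc hab hbc hac hB
    exact h a ha b hb c hc hab hbc hac (geodesic_of_betw hB)
  · intro h a ha b hb c hc hab hbc hac hG
    rcases betw_of_geodesic hG with h1 | h1 | h1
    · exact h a ha b hb c hc hab hbc hac h1
    · exact h b hb a ha c hc hab.symm hac hbc h1
    · exact h a ha c hc b hb hac hbc.symm hab h1

end dist

/-! ### Upper bound -/

section upper

variable {m : ℕ}

/-- the order used for the labels -/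
def prec (x y : Fin (m + 1) → ℤ) : Prop :=
  x 0 < y 0 ∨ (x 0 = y 0 ∧ Encodable.encode x < Encodable.encode y)

/-- the sign vector -/
def sgv (x y : Fin (m + 1) → ℤ) : Fin m → Bool := fun j => decide (x j.succ ≤ y j.succ)

/-- labels -/
def lab (S : Set (Fin (m + 1) → ℤ)) (p : Fin (m + 1) → ℤ) : Set (Fin m → Bool) :=
  {σ | ∃ q ∈ S, prec q p ∧ sgv q p = σ}

lemma betw_of_prec {r q p : Fin (m + 1) → ℤ} (h1 : prec r q) (h2 : prec q p)
    (h : sgv r q = sgv q p) : Betw r q p := by
  intro i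
  refine Fin.cases ?_ (fun j => ?_) i
  · left
    constructor
    · rcases h1 with h1 | h1
      · exact h1.le
      · exact h1.1.le
    · rcases h2 with h1 | h1
      · exact h1.le
      · exact h1.1.le
  · have hj := congrFun h j
    simp only [sgv, decide_eq_decide] at hj
    by_cases h3 : r j.succ ≤ q j.succ
    · exact Or.inl ⟨h3, hj.mp h3⟩
    · right
      have : ¬ q j.succ ≤ p j.succ := fun h4 => h3 (hj.mpr h4)
      omega

lemma lab_ne {S : Set (Fin (m + 1) → ℤ)} (hS : GenPos (latticeGraph (m + 1)) S)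
    {q p : Fin (m + 1) → ℤ} (hq : q ∈ S) (hp : p ∈ S) (hqp : prec q p) : lab S q ≠ lab S p := by
  intro h
  have h1 : sgv q p ∈ lab S p := ⟨q, hq, hqp, rfl⟩
  rw [← h] at h1
  obtain ⟨r, hr, hrq, hs⟩ := h1
  rw [genPos_iff] at hS
  have hne : ∀ x y : Fin (m + 1) → ℤ, prec x y → x ≠ y := by
    rintro x y (h1 | h1) rfl
    · exact lt_irrefl _ h1
    · exact lt_irrefl _ h1.2
  refine hS r hr q hq p hp (hne _ _ hrq) (hne _ _ hqp) ?_ (betw_of_prec hrq hqp hs)
  rintro rfl
  unfold prec at hrq hqp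
  omega

lemma lab_injOn {S : Set (Fin (m + 1) → ℤ)} (hS : GenPos (latticeGraph (m + 1)) S) :
    Set.InjOn (lab S) S := by
  intro q hq p hp h
  by_contra hne
  have htot : prec q p ∨ prec p q := by
    unfold prec
    have : Encodable.encode q ≠ Encodable.encode p := fun h => hne (Encodable.encode_injective h)
    omega
  rcases htot with h1 | h1
  · exact lab_ne hS hq hp h1 h
  · exact lab_ne hS hp hq h1 h.symm

lemma upper {S : Set (Fin (m + 1) → ℤ)} (hS : GenPos (latticeGraph (m + 1)) S) :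
    S.encard ≤ 2 ^ 2 ^ m := by
  rw [← (lab_injOn hS).encard_image]
  refine (Set.encard_le_encard (Set.subset_univ _)).trans ?_
  rw [Set.encard_univ, ENat.card_eq_coe_fintype_card]
  simp

end upper

/-! ### Paths of legal moves -/

section paths

/-- `b` can be reached from `a` in exactly `n` steps of `R` -/
def PathN {A : Type*} (R : A → A → Prop) : ℕ → A → A → Prop
  | 0, a, b => a = b
  | n + 1, a, b => ∃ c, R a c ∧ PathN R n c b

lemma PathN.trans {A : Type*} {R : A → A → Prop} {n m : ℕ} {a b c : A}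
    (h1 : PathN R n a b) (h2 : PathN R m b c) : PathN R (n + m) a c := by
  induction n generalizing a with
  | zero =>
    have : a = b := h1
    subst this
    rw [Nat.zero_add]; exact h2
  | succ n ih =>
    obtain ⟨d, h3, h4⟩ := h1
    rw [Nat.succ_add]
    exact ⟨d, h3, ih h4⟩

lemma flatten {A : Type*} {R : A → A → Prop} (S : ℕ → A)
    (h : ∀ n, ∃ l, PathN R (l + 1) (S n) (S (n + 1))) :
    ∃ c : ℕ → A, c 0 = S 0 ∧ (∀ i, R (c i) (c (i + 1))) ∧ ∀ n, ∃ i, c i = S n := by
  have hnext : ∀ x : {x : A × ℕ × ℕ // PathN R x.2.1 x.1 (S x.2.2)},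
      ∃ y : {x : A × ℕ × ℕ // PathN R x.2.1 x.1 (S x.2.2)}, R x.1.1 y.1.1 ∧
        (∀ l, x.1.2.1 = l + 1 → y.1.2.1 = l ∧ y.1.2.2 = x.1.2.2) ∧
        (x.1.2.1 = 0 → y.1.2.2 = x.1.2.2 + 1) := by
    rintro ⟨⟨a, l, j⟩, hx⟩
    cases l with
    | zero =>
      have ha : a = S j := hx
      obtain ⟨l, c, h1, h2⟩ := h j
      refine ⟨⟨(c, l, j + 1), h2⟩, ?_, ?_, ?_⟩
      · show R a c
        rw [ha]; exact h1
      · intro l' hl'
        exact absurd hl' (by simp)
      · intro _; rfl
    | succ l =>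
      obtain ⟨c, h1, h2⟩ := hx
      refine ⟨⟨(c, l, j), h2⟩, h1, ?_, ?_⟩
      · intro l' hl'
        have : l + 1 = l' + 1 := hl'
        exact ⟨by show l = l'; omega, rfl⟩
      · intro h0
        have : l + 1 = 0 := h0
        omega
  choose next hn1 hn2 hn3 using hnext
  let x0 : {x : A × ℕ × ℕ // PathN R x.2.1 x.1 (S x.2.2)} := ⟨(S 0, 0, 0), rfl⟩
  let st : ℕ → {x : A × ℕ × ℕ // PathN R x.2.1 x.1 (S x.2.2)} := fun i => next^[i] x0
  have hst : ∀ i, st (i + 1) = next (st i) := fun i => Function.iterate_succ_apply' next i x0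
  have claim1 : ∀ l i, (st i).1.2.1 = l → ∃ i', (st i').1.2.1 = 0 ∧
      (st i').1.2.2 = (st i).1.2.2 := by
    intro l
    induction l with
    | zero => intro i hi; exact ⟨i, hi, rfl⟩
    | succ l ih =>
      intro i hi
      have h1 := hn2 (st i) l hi
      rw [← hst] at h1
      obtain ⟨i', h2, h3⟩ := ih (i + 1) h1.1
      exact ⟨i', h2, h3.trans h1.2⟩
  have claim2 : ∀ n, ∃ i, (st i).1.2.1 = 0 ∧ (st i).1.2.2 = n := by
    intro n
    induction n with
    | zero => exact ⟨0, rfl, rfl⟩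
    | succ n ih =>
      obtain ⟨i, h1, h2⟩ := ih
      have h3 := hn3 (st i) h1
      rw [← hst, h2] at h3
      obtain ⟨i', h4, h5⟩ := claim1 _ (i + 1) rfl
      exact ⟨i', h4, h5.trans h3⟩
  refine ⟨fun i => (st i).1.1, rfl, ?_, ?_⟩
  · intro i
    show R (st i).1.1 (st (i + 1)).1.1
    rw [hst]
    exact hn1 _
  · intro n
    obtain ⟨i, h1, h2⟩ := claim2 n
    refine ⟨i, ?_⟩
    show (st i).1.1 = S n
    have h3 := (st i).2
    rw [h1, h2] at h3
    exact h3

end paths

/-! ### Lower bound -/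

section lower

variable {m : ℕ}

/-- index set of the robots -/
abbrev Ix (m : ℕ) := (Fin m → Bool) → Bool

/-- rank of a sign vector -/
noncomputable def rk (m : ℕ) : (Fin m → Bool) → ℕ := fun σ => (Fintype.equivFin _ σ : Fin _)

lemma rk_inj : Function.Injective (rk m) := by
  intro a b h
  exact (Fintype.equivFin (Fin m → Bool)).injective (Fin.ext h)

/-- sign of the coordinate `i` for the sign vector `σ` -/
def sg (i : Fin (m + 1)) (σ : Fin m → Bool) : ℤ :=
  Fin.cases 1 (fun j => if σ j then 1 else -1) i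

lemma sg_cases (i : Fin (m + 1)) (σ : Fin m → Bool) : sg i σ = 1 ∨ sg i σ = -1 := by
  refine Fin.cases ?_ (fun j => ?_) i
  · left; rfl
  · show (if σ j then (1 : ℤ) else -1) = 1 ∨ (if σ j then (1 : ℤ) else -1) = -1
    split_ifs <;> simp

lemma sg_zero (σ : Fin m → Bool) : sg 0 σ = 1 := rfl

lemma sg_inj {σ τ : Fin m → Bool} (h : ∀ i, sg i σ = sg i τ) : σ = τ := by
  funext j
  have h1 : (if σ j then (1 : ℤ) else -1) = (if τ j then (1 : ℤ) else -1) := h j.succ
  cases h2 : σ j <;> cases h3 : τ j <;> simp_all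

/-- base position of the robot `e` -/
noncomputable def base (e : Ix m) : Fin (m + 1) → ℤ :=
  fun i => 2 * ∑ σ, (sg i σ * (if e σ then 1 else 0)) * 2 ^ rk m σ

/-- The robots are placed according to the sign pattern. -/
def Good (P : Ix m → (Fin (m + 1) → ℤ)) : Prop :=
  ∀ e f : Ix m, ∀ σ, (∀ τ, rk m σ < rk m τ → e τ = f τ) → e σ = false → f σ = true →
    ∀ i, 0 < sg i σ * (P f i - P e i)

/-- like `Good`, with margin `2` -/
def Good2 (P : Ix m → (Fin (m + 1) → ℤ)) : Prop :=
  ∀ e f : Ix m, ∀ σ, (∀ τ, rk m σ < rk m τ → e τ = f τ) → e σ = false → f σ = true →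
    ∀ i, 2 ≤ sg i σ * (P f i - P e i)

lemma sum_pos (w : (Fin m → Bool) → ℤ) (σ : Fin m → Bool) (h1 : ∀ τ, -1 ≤ w τ)
    (h2 : ∀ τ, rk m σ < rk m τ → w τ = 0) (h3 : w σ = 1) : 1 ≤ ∑ τ, w τ * 2 ^ rk m τ := by
  rw [← Finset.add_sum_erase _ _ (Finset.mem_univ σ), h3, one_mul]
  have h4 : ∑ τ ∈ Finset.univ.erase σ, w τ * 2 ^ rk m τ ≥
      - ∑ τ ∈ Finset.univ.filter (fun τ => rk m τ < rk m σ), (2 : ℤ) ^ rk m τ := by
    rw [← Finset.sum_neg_distrib]
    have h5 : ∑ τ ∈ Finset.univ.filter (fun τ => rk m τ < rk m σ), w τ * (2 : ℤ) ^ rk m τ =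
        ∑ τ ∈ Finset.univ.erase σ, w τ * 2 ^ rk m τ := by
      apply Finset.sum_subset
      · intro τ hτ
        rw [Finset.mem_filter] at hτ
        refine Finset.mem_erase.mpr ⟨?_, Finset.mem_univ _⟩
        rintro rfl
        exact lt_irrefl _ hτ.2
      · intro τ hτ hτ2
        have hne : τ ≠ σ := Finset.ne_of_mem_erase hτ
        have hle : rk m σ ≤ rk m τ := by
          by_contra hcon
          exact hτ2 (Finset.mem_filter.mpr ⟨Finset.mem_univ _, by omega⟩)
        have hlt : rk m σ < rk m τ := lt_of_le_of_ne hle (fun h => hne (rk_inj h).symm)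
        rw [h2 τ hlt, zero_mul]
    rw [← h5]
    apply Finset.sum_le_sum
    intro τ _
    have := h1 τ
    have hp : (0 : ℤ) < 2 ^ rk m τ := by positivity
    nlinarith
  have h6 : ∑ τ ∈ Finset.univ.filter (fun τ => rk m τ < rk m σ), 2 ^ rk m τ < 2 ^ rk m σ := by
    have h7 : ∑ τ ∈ Finset.univ.filter (fun τ => rk m τ < rk m σ), 2 ^ rk m τ =
        ∑ n ∈ (Finset.univ.filter (fun τ => rk m τ < rk m σ)).image (rk m), 2 ^ n := by
      rw [Finset.sum_image]
      intro a _ b _ h
      exact rk_inj h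
    rw [h7]
    apply Nat.geomSum_lt le_rfl
    intro n hn
    rw [Finset.mem_image] at hn
    obtain ⟨τ, hτ, rfl⟩ := hn
    exact (Finset.mem_filter.mp hτ).2
  have h8 : ∑ τ ∈ Finset.univ.filter (fun τ => rk m τ < rk m σ), (2 : ℤ) ^ rk m τ <
      2 ^ rk m σ := by exact_mod_cast h6
  omega

lemma base_good : Good2 (base (m := m)) := by
  intro e f σ h1 h2 h3 i
  have h4 : sg i σ * (base f i - base e i) = 2 * ∑ τ, (sg i σ * sg i τ *
      ((if f τ then 1 else 0) - (if e τ then 1 else 0))) * 2 ^ rk m τ := by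
    unfold base
    rw [← mul_sub, ← Finset.sum_sub_distrib, ← mul_assoc, mul_comm (sg i σ) 2, mul_assoc,
      Finset.mul_sum]
    congr 1
    apply Finset.sum_congr rfl
    intro τ _
    ring
  rw [h4]
  have h5 := sum_pos (m := m) (fun τ => sg i σ * sg i τ *
      ((if f τ then 1 else 0) - (if e τ then 1 else 0))) σ ?_ ?_ ?_
  · linarith
  · intro τ
    rcases sg_cases i σ with ha | ha <;> rcases sg_cases i τ with hb | hb <;>
      cases e τ <;> cases f τ <;> simp [ha, hb]
  · intro τ hτ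
    simp [h1 τ hτ]
  · rcases sg_cases i σ with ha | ha <;> simp [ha, h2, h3]

lemma exists_top {e f : Ix m} (h : e ≠ f) : ∃ σ, e σ ≠ f σ ∧
    ∀ τ, rk m σ < rk m τ → e τ = f τ := by
  have hne : (Finset.univ.filter (fun σ => e σ ≠ f σ)).Nonempty := by
    by_contra hcon
    rw [Finset.not_nonempty_iff_eq_empty, Finset.filter_eq_empty_iff] at hcon
    exact h (funext fun σ => not_not.mp (hcon (Finset.mem_univ σ)))
  obtain ⟨σ, hσ, hmax⟩ := Finset.exists_max_image _ (rk m) hne
  refine ⟨σ, (Finset.mem_filter.mp hσ).2, ?_⟩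
  intro τ hτ
  by_contra hcon
  have := hmax τ (Finset.mem_filter.mpr ⟨Finset.mem_univ _, hcon⟩)
  omega

lemma Good.sep {P : Ix m → (Fin (m + 1) → ℤ)} (hP : Good P) {e f : Ix m} (h : e ≠ f) :
    (∃ σ, e σ = false ∧ f σ = true ∧ ∀ i, 0 < sg i σ * (P f i - P e i)) ∨
    (∃ σ, f σ = false ∧ e σ = true ∧ ∀ i, 0 < sg i σ * (P e i - P f i)) := by
  obtain ⟨σ, h1, h2⟩ := exists_top h
  cases h3 : e σ <;> cases h4 : f σ
  · rw [h3, h4] at h1; exact absurd rfl h1
  · exact Or.inl ⟨σ, h3, h4, hP e f σ h2 h3 h4⟩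
  · exact Or.inr ⟨σ, h4, h3, hP f e σ (fun τ hτ => (h2 τ hτ).symm) h4 h3⟩
  · rw [h3, h4] at h1; exact absurd rfl h1

lemma Good.inj {P : Ix m → (Fin (m + 1) → ℤ)} (hP : Good P) : Function.Injective P := by
  intro e f h
  by_contra hne
  rcases hP.sep hne with ⟨σ, _, _, h3⟩ | ⟨σ, _, _, h3⟩
  · have := h3 0
    rw [h] at this
    simp at this
  · have := h3 0
    rw [h] at this
    simp at this

lemma Good.aux {P : Ix m → (Fin (m + 1) → ℤ)} {e f g : Ix m} {σ τ : Fin m → Bool}
    (h1 : ∀ i, 0 < sg i σ * (P f i - P e i)) (h2 : ∀ i, 0 < sg i τ * (P g i - P f i))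
    (hB : Betw (P e) (P f) (P g)) : σ = τ := by
  apply sg_inj
  intro i
  have h3 := h1 i
  have h4 := h2 i
  have h5 := hB i
  rcases sg_cases i σ with ha | ha <;> rcases sg_cases i τ with hb | hb <;>
    rw [ha] at h3 ⊢ <;> rw [hb] at h4 ⊢ <;> omega

lemma betw_symm {k : ℕ} {x y z : Fin k → ℤ} (h : Betw x y z) : Betw z y x := by
  intro i
  have := h i
  tauto

lemma Good.genPos {P : Ix m → (Fin (m + 1) → ℤ)} (hP : Good P) :
    GenPos (latticeGraph (m + 1)) (Set.range P) := by
  rw [genPos_iff]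
  rintro _ ⟨e, rfl⟩ _ ⟨f, rfl⟩ _ ⟨g, rfl⟩ h1 h2 h3 hB
  have hef : e ≠ f := fun h => h1 (by rw [h])
  have hfg : f ≠ g := fun h => h2 (by rw [h])
  rcases hP.sep hef with ⟨σ, a1, a2, a3⟩ | ⟨σ, a1, a2, a3⟩ <;>
    rcases hP.sep hfg with ⟨τ, b1, b2, b3⟩ | ⟨τ, b1, b2, b3⟩
  · have : σ = τ := Good.aux a3 b3 hB
    subst this
    rw [a2] at b1; exact absurd b1 (by simp)
  · have c1 := a3 0
    have c2 := b3 0
    have c3 := hB 0
    rw [sg_zero] at c1 c2
    omega
  · have c1 := a3 0
    have c2 := b3 0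
    have c3 := hB 0
    rw [sg_zero] at c1 c2
    omega
  · have : τ = σ := Good.aux b3 a3 (betw_symm hB)
    subst this
    rw [a1] at b2; exact absurd b2 (by simp)

lemma Good.encard {P : Ix m → (Fin (m + 1) → ℤ)} (hP : Good P) :
    (Set.range P).encard = 2 ^ 2 ^ m := by
  rw [← Set.image_univ, hP.inj.injOn.encard_image, Set.encard_univ,
    ENat.card_eq_coe_fintype_card]
  simp [Ix]

open Classical in
lemma legal_of_update {P P' : Ix m → (Fin (m + 1) → ℤ)} (hP : Good P) (hP' : Good P')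
    (e : Ix m) (h1 : ∀ f, f ≠ e → P' f = P f) (h2 : (latticeGraph (m + 1)).Adj (P e) (P' e)) :
    LegalMove (latticeGraph (m + 1)) (Set.range P) (Set.range P') := by
  refine ⟨P e, ⟨e, rfl⟩, P' e, ?_, h2, ?_, hP'.genPos⟩
  · rintro ⟨f, hf⟩
    by_cases hfe : f = e
    · subst hfe
      rw [hf] at h2
      exact (latticeGraph (m + 1)).loopless.irrefl _ h2
    · rw [← h1 f hfe] at hf
      exact hfe (hP'.inj hf)
  · ext x
    constructor
    · rintro ⟨f, rfl⟩
      by_cases hfe : f = e
      · left; rw [hfe]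
      · right
        refine ⟨⟨f, (h1 f hfe).symm⟩, ?_⟩
        rw [h1 f hfe]
        intro hx
        exact hfe (hP.inj hx)
    · rintro (rfl | ⟨⟨f, rfl⟩, hx⟩)
      · exact ⟨e, rfl⟩
      · have hfe : f ≠ e := by
          rintro rfl
          exact hx rfl
        exact ⟨f, h1 f hfe⟩

open Classical in
lemma path_step {X : Ix m → (Fin (m + 1) → ℤ)} (hX : Good2 X) (t : Fin (m + 1) → ℤ)
    (c : Fin (m + 1)) (s : ℤ) (hs : s = 1 ∨ s = -1) (F : Finset (Ix m)) :
    PathN (LegalMove (latticeGraph (m + 1))) F.card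
      (Set.range fun e => X e + t)
      (Set.range fun e => if e ∈ F then X e + t + Pi.single c s else X e + t) := by
  have hgood : ∀ F : Finset (Ix m),
      Good (fun e => if e ∈ F then X e + t + Pi.single c s else X e + t) := by
    intro F e f σ h1 h2 h3 i
    have h4 := hX e f σ h1 h2 h3 i
    have hsi : (Pi.single c s : Fin (m + 1) → ℤ) i = 0 ∨
        (Pi.single c s : Fin (m + 1) → ℤ) i = 1 ∨ (Pi.single c s : Fin (m + 1) → ℤ) i = -1 := by
      by_cases hic : i = c
      · subst hic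
        rw [Pi.single_eq_same]; tauto
      · rw [Pi.single_eq_of_ne hic]; tauto
    show 0 < sg i σ * ((if f ∈ F then X f + t + Pi.single c s else X f + t) i -
      (if e ∈ F then X e + t + Pi.single c s else X e + t) i)
    rcases sg_cases i σ with ha | ha <;> rw [ha] at h4 ⊢ <;>
      split_ifs <;> simp only [Pi.add_apply] <;> omega
  induction F using Finset.induction_on with
  | empty => simp [PathN]
  | insert e F he ih =>
    rw [Finset.card_insert_of_notMem he]
    refine ih.trans (m := 1) ⟨_, ?_, rfl⟩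
    apply legal_of_update (hgood F) (hgood (insert e F)) e
    · intro f hf
      simp [hf]
    · simp only [he, if_false, Finset.mem_insert_self, if_true]
      refine ⟨c, ?_, ?_⟩
      · simp only [Pi.add_apply, Pi.single_eq_same]
        rcases hs with rfl | rfl <;> simp
      · intro j hj
        simp [Pi.single_eq_of_ne hj]

lemma path_adj {X : Ix m → (Fin (m + 1) → ℤ)} (hX : Good2 X) {t t' : Fin (m + 1) → ℤ}
    (h : (latticeGraph (m + 1)).Adj t t') :
    ∃ l, PathN (LegalMove (latticeGraph (m + 1))) (l + 1)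
      (Set.range fun e => X e + t) (Set.range fun e => X e + t') := by
  obtain ⟨c, h1, h2⟩ := h
  have hs : t' c - t c = 1 ∨ t' c - t c = -1 := by
    rw [abs_sub_comm] at h1
    rcases abs_eq (by norm_num : (0 : ℤ) ≤ 1) |>.mp h1 with h | h
    · exact Or.inl h
    · exact Or.inr h
  have h3 := path_step hX t c (t' c - t c) hs Finset.univ
  have h4 : t' = t + Pi.single c (t' c - t c) := by
    funext j
    by_cases hj : j = c
    · subst hj; simp
    · simp [Pi.single_eq_of_ne hj, h2 j hj]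
  have h5 : Fintype.card (Ix m) ≠ 0 := Fintype.card_ne_zero
  obtain ⟨l, hl⟩ := Nat.exists_eq_succ_of_ne_zero h5
  refine ⟨l, ?_⟩
  rw [Finset.card_univ, hl] at h3
  convert h3 using 3
  rw [if_pos (Finset.mem_univ _), add_assoc, ← h4]

lemma path_walk {X : Ix m → (Fin (m + 1) → ℤ)} (hX : Good2 X) {t t' : Fin (m + 1) → ℤ}
    (p : (latticeGraph (m + 1)).Walk t t') :
    ∃ l, PathN (LegalMove (latticeGraph (m + 1))) l
      (Set.range fun e => X e + t) (Set.range fun e => X e + t') := by
  induction p with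
  | nil => exact ⟨0, rfl⟩
  | cons h p ih =>
    obtain ⟨l, hl⟩ := ih
    obtain ⟨l', hl'⟩ := path_adj hX h
    exact ⟨_, hl'.trans hl⟩

lemma path_any {X : Ix m → (Fin (m + 1) → ℤ)} (hX : Good2 X) (t t' : Fin (m + 1) → ℤ) :
    ∃ l, PathN (LegalMove (latticeGraph (m + 1))) (l + 1)
      (Set.range fun e => X e + t) (Set.range fun e => X e + t') := by
  have hadj : (latticeGraph (m + 1)).Adj t (t + Pi.single 0 1) := by
    refine ⟨0, by simp, ?_⟩
    intro j hj
    simp [Pi.single_eq_of_ne hj]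
  obtain ⟨l, hl⟩ := path_adj hX hadj
  obtain ⟨p, _⟩ := exists_walk _ (t + Pi.single 0 1) t' rfl
  obtain ⟨l', hl'⟩ := path_walk hX p
  refine ⟨l + l', ?_⟩
  have := hl.trans hl'
  rwa [show l + 1 + l' = l + l' + 1 by omega] at this

lemma lower : ∃ S : Set (Fin (m + 1) → ℤ), S.encard = 2 ^ 2 ^ m ∧
    IsMobile (latticeGraph (m + 1)) S := by
  have hX : Good2 (base (m := m)) := base_good
  have hgood : ∀ t : Fin (m + 1) → ℤ, Good (fun e => base (m := m) e + t) := by
    intro t e f σ h1 h2 h3 i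
    have := hX e f σ h1 h2 h3 i
    show 0 < sg i σ * ((base f + t) i - (base e + t) i)
    simp only [Pi.add_apply]
    rw [add_sub_add_right_eq_sub]
    omega
  obtain ⟨en, hen⟩ := exists_surjective_nat (Fin (m + 1) → ℤ)
  obtain ⟨c, hc0, hc1, hc2⟩ := flatten
    (fun n => Set.range fun e : Ix m => base e + en n) (fun n => path_any hX _ _)
  refine ⟨c 0, ?_, ?_, ⊤, c, rfl, fun i _ => hc1 i, ?_⟩
  · rw [hc0]
    exact (hgood _).encard
  · rw [hc0]
    exact (hgood _).genPos
  · intro v
    obtain ⟨n, hn⟩ := hen (v - base (fun _ => false))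
    obtain ⟨i, hi⟩ := hc2 n
    refine ⟨i, le_top, ?_⟩
    rw [hi]
    refine ⟨fun _ => false, ?_⟩
    show base (fun _ => false) + en n = v
    rw [hn]
    abel

end lower

/-- For every `k ≥ 1`, the mobile general position number of the `k`-fold Cartesian product of
the two-way infinite path is `2^(2^(k-1))`: it is the largest size of a mobile general position
set. -/
theorem result (k : ℕ) (hk : 1 ≤ k) :
    IsGreatest {n : ℕ∞ | ∃ S : Set (Fin k → ℤ), S.encard = n ∧ IsMobile (latticeGraph k) S}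
      (2 ^ 2 ^ (k - 1)) := by
  obtain ⟨m, rfl⟩ := Nat.exists_eq_add_of_le' hk
  rw [Nat.add_sub_cancel]
  refine ⟨lower, ?_⟩
  rintro n ⟨S, rfl, hS⟩
  exact upper hS.1

end Pool.Agent.Results.MP_903b9e_co.LatticeMob
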